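import Pool.Agent.Helper78.OE.GoalsC1

set_option autoImplicit false

/-!
# Packet OE-STRIP1 (MP_fc0446_an)

Independence of the labels of an edge and of a finite piece of the configuration not containing both
ends of the edge.
-/

open MeasureTheory ProbabilityTheory Pool.Agent.Helper73.OE Pool.Agent.Helper78.OE
open scoped ENNReal

namespace Pool.Agent.Helper74.OE

variable {H S L : Type} [Group H] (X : Sys H S L)

/-- A constant factor comes out of the mean value. -/
theorem starAvg_mul [Fintype S] [Fintype L] (Λ : Finset H) (O : Edges H S)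
    (F : Cfg H S L → ℝ≥0∞) (c : ℝ≥0∞) :
    X.starAvg Λ O (fun q => F q * c) = X.starAvg Λ O F * c := by
  have h : X.starSum Λ O (fun q => F q * c) = X.starSum Λ O F * c := by
    unfold Sys.starSum
    rw [Finset.sum_mul]
    apply Finset.sum_congr rfl
    intro f _
    split_ifs
    · rfl
    · rw [zero_mul]
  unfold Sys.starAvg
  rw [h, ENNReal.mul_div_right_comm]

theorem measurableSet_Cl (ε : ℝ) (v : H) (s : S) :
    MeasurableSet {η : Env H S | X.Cl ε η v s} := by
  have h1 : ∀ e : H × S, MeasurableSet {η : Env H S | ((η e).1 : ℝ) ^ 2 ≤ ε} := by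
    intro e
    have h2 : Measurable fun η : Env H S => ((η e).1 : ℝ) ^ 2 := by fun_prop
    exact measurableSet_le h2 measurable_const
  exact (h1 (v, s)).inter (h1 (X.rev (v, s)))

theorem measurableSet_Op (ε : ℝ) (v : H) (s : S) :
    MeasurableSet {η : Env H S | X.Op ε η v s} :=
  (measurableSet_Cl X ε v s).compl

theorem measurableSet_MA [Finite S] (ε : ℝ) (Λ : Finset H) (g : Cfg H S L) :
    MeasurableSet {η : Env H S | X.MA (X.Op ε η) (Λ : Set H) g} := by
  have h : {η : Env H S | X.MA (X.Op ε η) (Λ : Set H) g} =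
      ⋂ v ∈ Λ, ⋂ s : S, {η : Env H S | X.nb v s ∈ Λ → X.Op ε η v s → X.Mt g v s} := by
    ext η
    simp only [Set.mem_ofPred_eq, Set.mem_iInter]
    constructor
    · intro h v hv s hs ho
      exact h v s (Finset.mem_coe.2 hv) (Finset.mem_coe.2 hs) ho
    · intro h v s hv hs ho
      exact h v (Finset.mem_coe.1 hv) s (Finset.mem_coe.1 hs) ho
  rw [h]
  apply Finset.measurableSet_biInter
  intro v _
  apply MeasurableSet.iInter
  intro s
  by_cases h1 : X.nb v s ∈ Λ ∧ ¬ X.Mt g v s
  · have h2 : {η : Env H S | X.nb v s ∈ Λ → X.Op ε η v s → X.Mt g v s} =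
        {η : Env H S | X.Op ε η v s}ᶜ := by
      ext η
      simp only [Set.mem_ofPred_eq, Set.mem_compl_iff]
      constructor
      · intro h3 h4
        exact h1.2 (h3 h1.1 h4)
      · intro h3 _ h4
        exact absurd h4 h3
    rw [h2]
    exact (measurableSet_Op X ε v s).compl
  · have h2 : {η : Env H S | X.nb v s ∈ Λ → X.Op ε η v s → X.Mt g v s} = Set.univ := by
      ext η
      simp only [Set.mem_ofPred_eq, Set.mem_univ, iff_true]
      intro h3 _
      by_contra h4
      exact h1 ⟨h3, h4⟩
    rw [h2]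
    exact MeasurableSet.univ

theorem measurable_starSum [Fintype S] [Fintype L] (ε : ℝ) (Λ : Finset H)
    (G : St H S L → ℝ≥0∞) (hG : Measurable G) :
    Measurable fun η : Env H S => X.starSum Λ (X.Op ε η) (fun q => G (q, η)) := by
  unfold Sys.starSum
  apply Finset.measurable_sum
  intro f _
  apply Measurable.ite (measurableSet_MA X ε Λ _)
  · exact hG.comp (measurable_const.prodMk measurable_id)
  · exact measurable_const

theorem measurable_starAvg [Fintype S] [Fintype L] (ε : ℝ) (Λ : Finset H)
    (G : St H S L → ℝ≥0∞) (hG : Measurable G) :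
    Measurable fun η : Env H S => X.starAvg Λ (X.Op ε η) (fun q => G (q, η)) := by
  unfold Sys.starAvg
  apply Measurable.div
  · exact measurable_starSum X ε Λ G hG
  · exact measurable_starSum X ε Λ (fun _ => 1) measurable_const

/-- The mean value depends only on the labels of the directed edges with both ends in `Λ`. -/
theorem starAvg_congr [Fintype S] [Fintype L] (ε : ℝ) (Λ : Finset H)
    (G : St H S L → ℝ≥0∞) (hG : X.DepOn (Λ : Set H) G) (η η' : Env H S)
    (h : ∀ z s, z ∈ Λ → X.nb z s ∈ Λ → η (z, s) = η' (z, s)) :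
    X.starAvg Λ (X.Op ε η) (fun q => G (q, η)) =
      X.starAvg Λ (X.Op ε η') (fun q => G (q, η')) := by
  have h1 : ∀ v s, v ∈ Λ → X.nb v s ∈ Λ → (X.Op ε η v s ↔ X.Op ε η' v s) := by
    intro v s hv hs
    apply Op_congr
    · exact h v s hv hs
    · apply h _ _ hs
      rw [X.nb_bar]
      exact hv
  have h2 : ∀ g : Cfg H S L, (X.MA (X.Op ε η) (Λ : Set H) g ↔
      X.MA (X.Op ε η') (Λ : Set H) g) := by
    intro g
    constructor
    · intro h3 v s hv hs ho
      exact h3 v s hv hs ((h1 v s (Finset.mem_coe.1 hv) (Finset.mem_coe.1 hs)).2 ho)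
    · intro h3 v s hv hs ho
      exact h3 v s hv hs ((h1 v s (Finset.mem_coe.1 hv) (Finset.mem_coe.1 hs)).1 ho)
  have h4 : ∀ q : Cfg H S L, G (q, η) = G (q, η') := by
    intro q
    apply hG
    · intro z _
      rfl
    · intro z s hz hs
      exact h z s (Finset.mem_coe.1 hz) (Finset.mem_coe.1 hs)
  have h5 : ∀ F F' : Cfg H S L → ℝ≥0∞, (∀ q, F q = F' q) →
      X.starSum Λ (X.Op ε η) F = X.starSum Λ (X.Op ε η') F' := by
    intro F F' hF
    unfold Sys.starSum
    apply Finset.sum_congr rfl
    intro f _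
    by_cases h6 : X.MA (X.Op ε η) (Λ : Set H) (X.glue Λ f)
    · rw [if_pos h6, if_pos ((h2 _).1 h6), hF]
    · rw [if_neg h6, if_neg (fun h7 => h6 ((h2 _).2 h7))]
  unfold Sys.starAvg
  rw [h5 (fun q => G (q, η)) (fun q => G (q, η')) h4, h5 (fun _ => 1) (fun _ => 1) (fun _ => rfl)]

theorem strip1 [Fintype S] [Fintype L] (ε : ℝ) : STRIP1 X ε := by
  classical
  intro μ hμ v t Λ hpc hnb G hGm hGd φ hφ
  have hF := hμ v Λ hpc (fun w => G w * φ (w.2 (v, t), w.2 (X.rev (v, t))))
    (by
      apply hGm.mul
      apply hφ.comp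
      fun_prop)
    (by
      intro q q' η hq
      have h1 : G (q, η) = G (q', η) := hGd _ _ (fun z hz => hq z (Finset.mem_coe.1 hz))
        (fun _ _ _ _ => rfl)
      show G (q, η) * φ (η (v, t), η (X.rev (v, t))) = G (q', η) * φ (η (v, t), η (X.rev (v, t)))
      rw [h1])
  have hG1 := hμ v Λ hpc G hGm
    (by
      intro q q' η hq
      exact hGd _ _ (fun z hz => hq z (Finset.mem_coe.1 hz)) (fun _ _ _ _ => rfl))
  rw [hF, hG1]
  have h2 : ∀ η : Env H S, X.starAvg Λ (X.Op ε η)
      (fun q => G (q, η) * φ (η (v, t), η (X.rev (v, t)))) =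
      X.starAvg Λ (X.Op ε η) (fun q => G (q, η)) * φ (η (v, t), η (X.rev (v, t))) := by
    intro η
    exact starAvg_mul X Λ (X.Op ε η) (fun q => G (q, η)) _
  have h3 : ∫⁻ η, X.starAvg Λ (X.Op ε η)
        (fun q => G (q, η) * φ (η (v, t), η (X.rev (v, t)))) ∂(Sys.lamE H S) =
      ∫⁻ η, X.starAvg Λ (X.Op ε η) (fun q => G (q, η)) * φ (η (v, t), η (X.rev (v, t)))
        ∂(Sys.lamE H S) := lintegral_congr h2
  refine h3.trans ?_
  -- the finite set of the directed edges inside
  set E : Finset (H × S) := (Λ ×ˢ Finset.univ).filter (fun e => X.nb e.1 e.2 ∈ Λ) with hE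
  set T : Finset (H × S) := {(v, t), X.rev (v, t)} with hT
  have hdis : Disjoint E T := by
    rw [Finset.disjoint_left]
    intro e he heT
    rw [hE, Finset.mem_filter, Finset.mem_product] at he
    rw [hT, Finset.mem_insert, Finset.mem_singleton] at heT
    rcases heT with heT | heT
    · rw [heT] at he
      exact hnb he.2
    · rw [heT] at he
      exact hnb he.1.1
  have hind : iIndepFun (fun (i : H × S) (η : Env H S) => η i) (Sys.lamE H S) := by
    unfold Sys.lamE
    exact iIndepFun_infinitePi (X := fun _ ω => ω) (by fun_prop)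
  have hind2 := hind.indepFun_finset E T hdis (fun i => measurable_pi_apply i)
  set A : Env H S → ℝ≥0∞ := fun η => X.starAvg Λ (X.Op ε η) (fun q => G (q, η)) with hA
  have hAm : Measurable A := measurable_starAvg X ε Λ G hGm
  let ext : (E → unitInterval × unitInterval) → Env H S := fun ξ i =>
    if h : i ∈ E then ξ ⟨i, h⟩ else 0
  have hext : Measurable ext := by
    rw [measurable_pi_iff]
    intro i
    by_cases h : i ∈ E
    · have h4 : (fun ξ : E → unitInterval × unitInterval => ext ξ i) = fun ξ => ξ ⟨i, h⟩ := by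
        funext ξ
        exact dif_pos h
      rw [h4]
      exact measurable_pi_apply _
    · have h4 : (fun ξ : E → unitInterval × unitInterval => ext ξ i) = fun _ => 0 := by
        funext ξ
        exact dif_neg h
      rw [h4]
      exact measurable_const
  have hAe : A = (A ∘ ext) ∘ (fun (η : Env H S) (i : E) => η i) := by
    funext η
    apply starAvg_congr X ε Λ G hGd
    intro z s hz hs
    have h5 : (z, s) ∈ E := by
      rw [hE, Finset.mem_filter, Finset.mem_product]
      exact ⟨⟨hz, Finset.mem_univ _⟩, hs⟩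
    have h9 : ∀ ξ : E → unitInterval × unitInterval, ext ξ (z, s) = ξ ⟨(z, s), h5⟩ := by
      intro ξ
      exact dif_pos h5
    exact (h9 (fun i : E => η i)).symm
  have hT1 : (v, t) ∈ T := by
    rw [hT]
    exact Finset.mem_insert_self _ _
  have hT2 : X.rev (v, t) ∈ T := by
    rw [hT, Finset.mem_insert]
    exact Or.inr (Finset.mem_singleton_self _)
  have hBe : (fun η : Env H S => φ (η (v, t), η (X.rev (v, t)))) =
      (fun ξ : T → unitInterval × unitInterval => φ (ξ ⟨(v, t), hT1⟩, ξ ⟨X.rev (v, t), hT2⟩)) ∘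
        (fun (η : Env H S) (i : T) => η i) := rfl
  have hind3 : IndepFun A (fun η : Env H S => φ (η (v, t), η (X.rev (v, t)))) (Sys.lamE H S) := by
    rw [hAe, hBe]
    apply hind2.comp (hAm.comp hext)
    apply hφ.comp
    fun_prop
  have hBm : Measurable (fun η : Env H S => φ (η (v, t), η (X.rev (v, t)))) := by
    apply hφ.comp
    fun_prop
  have h6 := lintegral_mul_eq_lintegral_mul_lintegral_of_indepFun'' hAm.aemeasurable
    hBm.aemeasurable hind3
  refine h6.trans ?_
  congr 1
  have h7 : (Sys.lamE H S).map (fun η : Env H S => (η (v, t), η (X.rev (v, t)))) =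
      (volume : Measure (unitInterval × unitInterval)).prod volume := by
    unfold Sys.lamE
    exact Measure.infinitePi_map_eval_prod (P := fun _ : H × S =>
      (volume : Measure (unitInterval × unitInterval))) (X.rev_ne (v, t)).symm
  have h8 : ∫⁻ x, φ x ∂((volume : Measure (unitInterval × unitInterval)).prod volume) =
      ∫⁻ η : Env H S, φ (η (v, t), η (X.rev (v, t))) ∂(Sys.lamE H S) := by
    rw [← h7]
    exact lintegral_map hφ (by fun_prop)
  rw [← h8]
  rfl

end Pool.Agent.Helper74.OE
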