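import Pool.Agent.Helper79.OE.GoalsD
import Pool.Agent.Helper74.OE.STRIP1

set_option autoImplicit false

/-!
# Packet OE-YME (MP_fc0446_an)

Measurability, dependence and monotonicity of the functional `YY`.
-/

open MeasureTheory Pool.Agent.Helper73.OE Pool.Agent.Helper78.OE Pool.Agent.Helper79.OE
open scoped ENNReal

namespace Pool.Agent.Helper74.OE

variable {H S L : Type} [Group H] (X : Sys H S L)

theorem measurableSet_lbl (z : H) (c : S) (l : L) :
    MeasurableSet {w : Cfg H S L × Env H S | w.1 z c = l} := by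
  have h1 : Measurable fun w : Cfg H S L × Env H S => w.1 z :=
    (measurable_pi_apply z).comp measurable_fst
  have h2 : MeasurableSet {f : S ≃ L | f c = l} := trivial
  exact h1 h2

theorem measurableSet_OpW (ε : ℝ) (z : H) (c : S) :
    MeasurableSet {w : Cfg H S L × Env H S | X.Op ε w.2 z c} :=
  measurable_snd (measurableSet_Op X ε z c)

theorem measurableSet_SiW (ε ε' : ℝ) (z : H) (c : S) :
    MeasurableSet {w : Cfg H S L × Env H S | X.Si ε ε' w.2 z c} :=
  measurable_snd ((measurableSet_Cl X ε z c).inter (measurableSet_Cl X ε' z c).compl)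

open Classical in
/-- The value at a child, with the label of the parent as the new label. -/
theorem measurable_child [Fintype S] [Fintype L] (ε ε' : ℝ) (t ζ κ : ℝ≥0∞) (h : ℕ)
    (ih : ∀ (z : H) (r : S) (l : L), Measurable (yy X ε ε' t ζ κ h z r l)) (z : H) (r c : S) :
    Measurable fun w : Cfg H S L × Env H S =>
      X.YY (X.Op ε w.2) (X.Si ε ε' w.2) w.1 t ζ κ h (X.nb z c) (X.bar c) (X.tau (w.1 z r)) := by
  have h1 : (fun w : Cfg H S L × Env H S =>
      X.YY (X.Op ε w.2) (X.Si ε ε' w.2) w.1 t ζ κ h (X.nb z c) (X.bar c) (X.tau (w.1 z r))) =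
      fun w => ∑ a : L, if w.1 z r = a then
        yy X ε ε' t ζ κ h (X.nb z c) (X.bar c) (X.tau a) w else 0 := by
    funext w
    rw [Finset.sum_ite_eq, if_pos (Finset.mem_univ _)]
    rfl
  rw [h1]
  refine Finset.measurable_sum _ fun a _ => ?_
  exact Measurable.ite (measurableSet_lbl z r a) (ih _ _ _) measurable_const

theorem yy_measurable [Fintype S] [Fintype L] (ε ε' : ℝ) (t ζ κ : ℝ≥0∞) (h : ℕ) :
    ∀ (z : H) (r : S) (l : L), Measurable (yy X ε ε' t ζ κ h z r l) := by
  classical
  induction h with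
  | zero =>
    intro z r l
    have h1 : yy X ε ε' t ζ κ 0 z r l = fun _ => 0 := by
      funext w
      rfl
    rw [h1]
    exact measurable_const
  | succ h ih =>
    intro z r l
    have hch := measurable_child X ε ε' t ζ κ h ih z r
    unfold yy
    simp only [Sys.YY]
    refine Measurable.const_mul (Measurable.add ?_ ?_) t
    · refine Finset.measurable_sum _ fun c _ => ?_
      exact Measurable.ite ((measurableSet_lbl z c l).inter (measurableSet_OpW X ε z c)) (hch c)
        measurable_const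
    · refine Measurable.const_mul (Finset.measurable_prod _ fun c _ => ?_) ζ
      refine Measurable.add measurable_const (Measurable.mul ?_ (hch c))
      exact Measurable.ite (measurableSet_SiW X ε ε' z c) measurable_const measurable_const

theorem Si_congr {ε ε' : ℝ} {η η' : Env H S} {v : H} {s : S} (h1 : η (v, s) = η' (v, s))
    (h2 : η (X.rev (v, s)) = η' (X.rev (v, s))) : X.Si ε ε' η v s ↔ X.Si ε ε' η' v s := by
  unfold Sys.Si Sys.Cl
  rw [h1, h2]

theorem yy_dep [Fintype S] (ε ε' : ℝ) (t ζ κ : ℝ≥0∞) (h : ℕ) :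
    ∀ (z : H) (r : S) (l : L), X.DepOn (X.Sd z r) (yy X ε ε' t ζ κ h z r l) := by
  classical
  induction h with
  | zero =>
    intro z r l w w' _ _
    rfl
  | succ h ih =>
    intro z r l w w' hw1 hw2
    have hz : w.1 z = w'.1 z := hw1 z (X.self_mem_Sd z r)
    have hsub : ∀ c, c ≠ r → X.Sd (X.nb z c) (X.bar c) ⊆ X.Sd z r := fun c hc =>
      X.branch_subset hc
    have hnb : ∀ c, c ≠ r → X.nb z c ∈ X.Sd z r := fun c hc => hsub c hc (X.self_mem_Sd _ _)
    have he1 : ∀ c, c ≠ r → w.2 (z, c) = w'.2 (z, c) := fun c hc =>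
      hw2 z c (X.self_mem_Sd z r) (hnb c hc)
    have he2 : ∀ c, c ≠ r → w.2 (X.rev (z, c)) = w'.2 (X.rev (z, c)) := by
      intro c hc
      apply hw2 _ _ (hnb c hc)
      rw [X.nb_bar]
      exact X.self_mem_Sd z r
    have hch : ∀ c, c ≠ r → ∀ a : L,
        X.YY (X.Op ε w.2) (X.Si ε ε' w.2) w.1 t ζ κ h (X.nb z c) (X.bar c) a =
        X.YY (X.Op ε w'.2) (X.Si ε ε' w'.2) w'.1 t ζ κ h (X.nb z c) (X.bar c) a := by
      intro c hc a
      exact ih (X.nb z c) (X.bar c) a w w' (fun x hx => hw1 x (hsub c hc hx))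
        (fun x s hx hs => hw2 x s (hsub c hc hx) (hsub c hc hs))
    unfold yy
    simp only [Sys.YY]
    rw [hz]
    congr 2
    · refine Finset.sum_congr rfl fun c hc => ?_
      have hcr : c ≠ r := (Finset.mem_erase.1 hc).1
      have hO : X.Op ε w.2 z c ↔ X.Op ε w'.2 z c := Op_congr X (he1 c hcr) (he2 c hcr)
      rw [hch c hcr]
      exact if_congr (and_congr_right fun _ => hO) rfl rfl
    · congr 1
      refine Finset.prod_congr rfl fun c hc => ?_
      have hcr : c ≠ r := (Finset.mem_erase.1 hc).1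
      have hSi : X.Si ε ε' w.2 z c ↔ X.Si ε ε' w'.2 z c := Si_congr X (he1 c hcr) (he2 c hcr)
      rw [hch c hcr]
      congr 2
      exact if_congr hSi rfl rfl

theorem YY_mono [Fintype S] (O Sg : Edges H S) (q : Cfg H S L) (t ζ κ : ℝ≥0∞) (h : ℕ) :
    ∀ (z : H) (r : S) (l : L),
      X.YY O Sg q t ζ κ h z r l ≤ X.YY O Sg q t ζ κ (h + 1) z r l := by
  classical
  induction h with
  | zero =>
    intro z r l
    exact zero_le
  | succ h ih =>
    intro z r l
    rw [Sys.YY, Sys.YY]
    refine mul_le_mul_right (add_le_add ?_ ?_) t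
    · refine Finset.sum_le_sum fun c _ => ?_
      split_ifs
      · exact ih _ _ _
      · exact le_rfl
    · refine mul_le_mul_right (Finset.prod_le_prod' fun c _ => ?_) ζ
      exact add_le_add le_rfl (mul_le_mul_right (ih _ _ _) _)

theorem yme : D_YME := by
  intro H S L _ _ _ X ε ε' t ζ κ h z r l
  exact ⟨yy_measurable X ε ε' t ζ κ h z r l, yy_dep X ε ε' t ζ κ h z r l,
    fun w => YY_mono X _ _ _ t ζ κ h z r l⟩

end Pool.Agent.Helper74.OE
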